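import Pool.Agent.Helper82.CLF.Int
import Pool.Agent.Helper82.BA.Final

/-!
# The closing lemma for geodesic flows on closed surfaces

`S` is any closed surface (a compact Hausdorff smooth manifold of dimension two).  `RMetric Plane S` is the space of
smooth Riemannian metrics on `S` with the smooth topology.  It is a Baire space, and for all metrics in a residual
subset the closed geodesics are dense in the unit tangent bundle.
-/

namespace Pool.Agent.Results.MP_6f990d_gt.ClosingLemma

open Pool.Agent.Helper82.GS.Stmt Filter
open scoped ContDiff

theorem result (S : Type*) [TopologicalSpace S] [CompactSpace S] [T2Space S] [ChartedSpace Plane S]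
    [IsManifold (modelWithCornersSelf ℝ Plane) ∞ S] :
    BaireSpace (RMetric Plane S) ∧ ∀ᶠ g in residual (RMetric Plane S), ClosedGeodesicsDense g :=
  ⟨Pool.Agent.Helper82.BA.baireSpace_stmt S, Pool.Agent.Helper82.CLF.closing_lemma S⟩

end Pool.Agent.Results.MP_6f990d_gt.ClosingLemma
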