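import Pool.Agent.Helper82.GD.Final

/-!
# Density of closed geodesics in the unit tangent bundle of a sphere or projective plane

The metric is `exp(2 lam) g0` on the unit sphere of Euclidean three-space, `lam` any function of class C^1; by the
uniformisation theorem every metric on the two-sphere is isometric to one of these, and every metric on the projective
plane is the quotient of one of these with `lam` even.

Sphere: if some sequence of finite families of closed geodesics is equidistributed in the sphere (arc length averages of
functions of the position tend to their area averages), then the same families together with the reversed geodesics are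
equidistributed in the unit tangent bundle for the Liouville measure, and the periodic orbits are dense there.

Projective plane: the same, where closed geodesics, functions of the position and functions of the velocity are those of
the projective plane.
-/

namespace Pool.Agent.Results.MP_6f990d_gt.SphereUnitTangent

open Filter Topology Pool.Agent.Helper82.GD

theorem result (lam : E3 → ℝ) (hl : ContDiff ℝ 1 lam) :
    (∀ C : ℕ → List ((ℝ → E3) × ℝ), (∀ k, ∀ c ∈ C k, IsClosedGeodesic lam c.1 c.2) →
      (∀ a : E3 → ℝ, Continuous a →
        Tendsto (fun k => average (C k) fun x _ => a x) atTop (𝓝 (areaAverage lam a))) →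
      (∀ F : E3 → E3 → ℝ, Continuous (Function.uncurry F) →
        Tendsto (fun k => average (C k) fun x v => (F x v + F x (-v)) / 2) atTop (𝓝 (liouvilleAverage lam F))) ∧
      unitTangent lam ⊆ closure (closedOrbits lam)) ∧
    ((∀ x, lam (-x) = lam x) →
      ∀ C : ℕ → List ((ℝ → E3) × ℝ), (∀ k, ∀ c ∈ C k, IsProjClosedGeodesic lam c.1 c.2) →
      (∀ a : E3 → ℝ, Continuous a → (∀ x, a (-x) = a x) →
        Tendsto (fun k => average (C k) fun x _ => a x) atTop (𝓝 (areaAverage lam a))) →
      (∀ F : E3 → E3 → ℝ, Continuous (Function.uncurry F) → (∀ x v, F (-x) (-v) = F x v) →
        Tendsto (fun k => average (C k) fun x v => (F x v + F x (-v)) / 2) atTop (𝓝 (liouvilleAverage lam F))) ∧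
      unitTangent lam ⊆ closure (closedOrbits lam)) :=
  main lam hl

end Pool.Agent.Results.MP_6f990d_gt.SphereUnitTangent
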